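import Mathlib

/-! The Fourier transform of the Poisson kernel. -/

set_option autoImplicit false

open scoped BigOperators FourierTransform
open MeasureTheory Set

namespace Pool.Agent.N559.FG

/-- the two-sided exponential -/
noncomputable def ea (a : ℝ) (x : ℝ) : ℂ := Complex.exp (-(a : ℂ) * |x|)

theorem ea_cont (a : ℝ) : Continuous (ea a) := by
  unfold ea
  fun_prop

theorem ea_int (a : ℝ) (ha : 0 < a) : Integrable (ea a) := by
  have h1 : IntegrableOn (ea a) (Iic 0) := by
    have h := integrableOn_exp_mul_complex_Iic (a := (a : ℂ)) (by simpa using ha) 0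
    refine h.congr_fun (fun x hx => ?_) measurableSet_Iic
    unfold ea
    have : |x| = -x := abs_of_nonpos hx
    rw [this]
    push_cast
    ring_nf
  have h2 : IntegrableOn (ea a) (Ioi 0) := by
    have h := integrableOn_exp_mul_complex_Ioi (a := -(a : ℂ)) (by simpa using ha) 0
    refine h.congr_fun (fun x hx => ?_) measurableSet_Ioi
    unfold ea
    have : |x| = x := abs_of_pos hx
    rw [this]
  have h3 := h1.union h2
  rwa [Iic_union_Ioi, integrableOn_univ] at h3

theorem ea_four (a : ℝ) (ha : 0 < a) (w : ℝ) :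
    𝓕 (ea a) w = ((2 * a / (a ^ 2 + 4 * Real.pi ^ 2 * w ^ 2) : ℝ) : ℂ) := by
  rw [Real.fourier_real_eq_integral_exp_smul]
  have hI : Integrable fun v : ℝ => Complex.exp (((-2 * Real.pi * v * w : ℝ) : ℂ) * Complex.I) •
      ea a v := by
    have := (Real.fourierIntegral_convergent_iff (V := ℝ) (μ := volume) (f := ea a) w).2
      (ea_int a ha)
    refine this.congr (Filter.Eventually.of_forall fun v => ?_)
    simp only [Real.fourierChar_apply', Circle.smul_def]
    congr 2
    simp only [RCLike.inner_apply, conj_trivial]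
    push_cast
    ring_nf
  rw [← integral_add_compl (measurableSet_Iic (a := (0 : ℝ))) hI, compl_Iic]
  have e1 : ∫ v in Iic (0 : ℝ), Complex.exp (((-2 * Real.pi * v * w : ℝ) : ℂ) * Complex.I) •
      ea a v = 1 / ((a : ℂ) - 2 * Real.pi * w * Complex.I) := by
    have h := integral_exp_mul_complex_Iic (a := (a : ℂ) - 2 * Real.pi * w * Complex.I)
      (by simpa using ha) 0
    rw [Complex.ofReal_zero, mul_zero, Complex.exp_zero] at h
    rw [← h]
    refine setIntegral_congr_fun measurableSet_Iic fun x hx => ?_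
    unfold ea
    have : |x| = -x := abs_of_nonpos hx
    simp only [this, smul_eq_mul]
    rw [← Complex.exp_add]
    congr 1
    push_cast
    ring
  have e2 : ∫ v in Ioi (0 : ℝ), Complex.exp (((-2 * Real.pi * v * w : ℝ) : ℂ) * Complex.I) •
      ea a v = 1 / ((a : ℂ) + 2 * Real.pi * w * Complex.I) := by
    have h := integral_exp_mul_complex_Ioi (a := -((a : ℂ) + 2 * Real.pi * w * Complex.I))
      (by simpa using ha) 0
    rw [Complex.ofReal_zero, mul_zero, Complex.exp_zero, neg_div_neg_eq] at h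
    rw [← h]
    refine setIntegral_congr_fun measurableSet_Ioi fun x hx => ?_
    unfold ea
    have : |x| = x := abs_of_pos hx
    simp only [this, smul_eq_mul]
    rw [← Complex.exp_add]
    congr 1
    push_cast
    ring
  rw [e1, e2]
  have n1 : ((a : ℂ) - 2 * Real.pi * w * Complex.I) ≠ 0 := by
    intro h0
    have := congrArg Complex.re h0
    simp at this
    exact ha.ne' this
  have n2 : ((a : ℂ) + 2 * Real.pi * w * Complex.I) ≠ 0 := by
    intro h0
    have := congrArg Complex.re h0
    simp at this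
    exact ha.ne' this
  have n3 : ((a : ℂ) ^ 2 + 4 * (Real.pi : ℂ) ^ 2 * (w : ℂ) ^ 2) =
      ((a : ℂ) - 2 * Real.pi * w * Complex.I) * ((a : ℂ) + 2 * Real.pi * w * Complex.I) := by
    linear_combination (4 * (Real.pi : ℂ) ^ 2 * (w : ℂ) ^ 2) * Complex.I_sq
  push_cast
  rw [n3, div_add_div _ _ n1 n2]
  congr 1
  ring

theorem po_integrable (p t : ℝ) (ht : 0 < t) :
    Integrable fun E : ℝ => t / ((E - p) ^ 2 + t ^ 2) := by
  have h := (ProbabilityTheory.integrable_cauchyPDFReal p (γ := ⟨t, ht.le⟩)).const_mul Real.pi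
  refine h.congr (Filter.Eventually.of_forall fun E => ?_)
  have e1 : ProbabilityTheory.cauchyPDFReal p ⟨t, ht.le⟩ E =
      Real.pi⁻¹ * t * ((E - p) ^ 2 + t ^ 2)⁻¹ := rfl
  simp only [e1]
  have := Real.pi_pos
  field_simp

theorem po_integral (p t : ℝ) (ht : 0 < t) :
    ∫ E : ℝ, t / ((E - p) ^ 2 + t ^ 2) = Real.pi := by
  have h := ProbabilityTheory.integral_cauchyPDFReal_eq_one p (γ := ⟨t, ht.le⟩)
    (by intro h0; exact ht.ne' (congrArg NNReal.toReal h0))
  have h2 : ∫ E : ℝ, t / ((E - p) ^ 2 + t ^ 2) = Real.pi *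
      ∫ x, ProbabilityTheory.cauchyPDFReal p ⟨t, ht.le⟩ x := by
    rw [← integral_const_mul]
    refine integral_congr_ae (Filter.Eventually.of_forall fun E => ?_)
    have e1 : ProbabilityTheory.cauchyPDFReal p ⟨t, ht.le⟩ E =
        Real.pi⁻¹ * t * ((E - p) ^ 2 + t ^ 2)⁻¹ := rfl
    simp only [e1]
    have := Real.pi_pos
    field_simp
  rw [h2, h, mul_one]

/-- the Fourier transform of the Poisson kernel -/
theorem four_po (p t s : ℝ) (ht : 0 < t) :
    ∫ E : ℝ, Complex.exp (-(Complex.I * s * E)) * ((t / ((E - p) ^ 2 + t ^ 2) : ℝ) : ℂ) =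
      Real.pi * Complex.exp (-(Complex.I * s * p) - t * |s|) := by
  have hπ := Real.pi_pos
  obtain ⟨a, ha⟩ : ∃ a, a = 2 * Real.pi * t := ⟨_, rfl⟩
  have ha0 : 0 < a := by rw [ha]; positivity
  have hF : ∀ w, 𝓕 (ea a) w = (((t / ((w - 0) ^ 2 + t ^ 2)) * Real.pi⁻¹ : ℝ) : ℂ) := by
    intro w
    rw [ea_four a ha0 w]
    congr 1
    rw [ha, sub_zero]
    field_simp
    ring
  have hFi : Integrable (𝓕 (ea a)) := by
    have h := ((po_integrable 0 t ht).mul_const Real.pi⁻¹).ofReal (𝕜 := ℂ)
    refine h.congr (Filter.Eventually.of_forall fun w => ?_)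
    simp only
    rw [hF w]
    simp
  have hinv := congrFun ((ea_cont a).fourierInv_fourier_eq (ea_int a ha0) hFi) (-s / (2 * Real.pi))
  rw [Real.fourierInv_eq' ] at hinv
  have h1 : ∫ E : ℝ, Complex.exp (-(Complex.I * s * E)) *
      ((t / ((E - 0) ^ 2 + t ^ 2) : ℝ) : ℂ) = Real.pi * Complex.exp (-(t * |s| : ℝ)) := by
    have e1 : ea a (-s / (2 * Real.pi)) = Complex.exp (-(t * |s| : ℝ)) := by
      unfold ea
      congr 1
      have : |-s / (2 * Real.pi)| = |s| / (2 * Real.pi) := by
        rw [abs_div, abs_neg, abs_of_pos (show 0 < 2 * Real.pi by positivity)]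
      rw [this, ha]
      push_cast
      field_simp
    rw [← e1, ← hinv, ← integral_const_mul]
    refine integral_congr_ae (Filter.Eventually.of_forall fun E => ?_)
    simp only
    rw [hF E]
    simp only [smul_eq_mul]
    have e2 : Complex.exp (((2 * Real.pi * inner ℝ E (-s / (2 * Real.pi)) : ℝ) : ℂ) * Complex.I) =
        Complex.exp (-(Complex.I * s * E)) := by
      congr 1
      simp only [RCLike.inner_apply, conj_trivial]
      push_cast
      field_simp
    rw [e2]
    push_cast
    field_simp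
  have h2 : ∫ E : ℝ, Complex.exp (-(Complex.I * s * E)) *
      ((t / ((E - p) ^ 2 + t ^ 2) : ℝ) : ℂ) = Complex.exp (-(Complex.I * s * p)) *
      ∫ E : ℝ, Complex.exp (-(Complex.I * s * E)) * ((t / ((E - 0) ^ 2 + t ^ 2) : ℝ) : ℂ) := by
    rw [← integral_const_mul, ← integral_add_right_eq_self _ p]
    refine integral_congr_ae (Filter.Eventually.of_forall fun E => ?_)
    simp only
    rw [← mul_assoc, ← Complex.exp_add]
    congr 2
    · push_cast
      ring
    · congr 1
      ring
  rw [h2, h1]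
  have e3 : Complex.exp (-(Complex.I * s * p) - t * |s|) = Complex.exp (-(Complex.I * s * p)) *
      Complex.exp (-(t * |s| : ℝ)) := by
    rw [← Complex.exp_add]
    congr 1
    push_cast
    ring
  rw [e3]
  ring

end Pool.Agent.N559.FG
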