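import Pool.Agent.N559.FG.Meas
import Pool.Agent.N559.FG.Four

/-! From Poisson integrals in a window to the Fourier transform. -/

set_option autoImplicit false

open scoped BigOperators
open MeasureTheory Set

namespace Pool.Agent.N559.FG

open Pool.Agent.TH794.LL2

theorem prod_int (m : Measure ℝ) [IsFiniteMeasure m] (t : ℝ) (ht : 0 < t) :
    Integrable (fun z : ℝ × ℝ => t / ((z.2 - z.1) ^ 2 + t ^ 2))
      ((volume : Measure ℝ).prod m) := by
  have hm : Measurable fun z : ℝ × ℝ => t / ((z.2 - z.1) ^ 2 + t ^ 2) := by fun_prop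
  rw [integrable_prod_iff' hm.aestronglyMeasurable]
  have e1 : ∀ x E : ℝ, t / ((x - E) ^ 2 + t ^ 2) = t / ((E - x) ^ 2 + t ^ 2) := by
    intro x E
    rw [show (x - E) ^ 2 = (E - x) ^ 2 by ring]
  refine ⟨Filter.Eventually.of_forall fun x => ?_, ?_⟩
  · have e3 : (fun E : ℝ => t / ((x - E) ^ 2 + t ^ 2)) = fun E => t / ((E - x) ^ 2 + t ^ 2) :=
      funext fun E => e1 x E
    exact e3 ▸ po_integrable x t ht
  · have e2 : (fun x : ℝ => ∫ E : ℝ, ‖t / ((x - E) ^ 2 + t ^ 2)‖) = fun _ => Real.pi := by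
      funext x
      have : ∀ E : ℝ, ‖t / ((x - E) ^ 2 + t ^ 2)‖ = t / ((E - x) ^ 2 + t ^ 2) := by
        intro E
        rw [Real.norm_of_nonneg (by positivity), e1]
      simp only [this]
      exact po_integral x t ht
    simp only [e2]
    exact integrable_const _

theorem Po_vol (m : Measure ℝ) [IsFiniteMeasure m] (t : ℝ) (ht : 0 < t) :
    Integrable (fun E : ℝ => Po m E t) := by
  have h := (prod_int m t ht).integral_prod_left
  exact h

/-- the Fourier transform of the Poisson integral -/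
theorem four_Po (m : Measure ℝ) [IsFiniteMeasure m] (t s : ℝ) (ht : 0 < t) :
    ∫ E : ℝ, Complex.exp (-(Complex.I * s * E)) * ((Po m E t : ℝ) : ℂ) =
      Real.pi * Complex.exp (-(t * |s|)) * ∫ x : ℝ, Complex.exp (-(Complex.I * s * x)) ∂m := by
  have h1 : ∀ E : ℝ, Complex.exp (-(Complex.I * s * E)) * ((Po m E t : ℝ) : ℂ) =
      ∫ x : ℝ, Complex.exp (-(Complex.I * s * E)) * ((t / ((x - E) ^ 2 + t ^ 2) : ℝ) : ℂ) ∂m := by
    intro E
    unfold Po
    rw [← integral_complex_ofReal, ← integral_const_mul]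
  simp only [h1]
  have hI : Integrable (Function.uncurry fun (E x : ℝ) => Complex.exp (-(Complex.I * s * E)) *
      ((t / ((x - E) ^ 2 + t ^ 2) : ℝ) : ℂ)) ((volume : Measure ℝ).prod m) := by
    have h2 := (prod_int m t ht).ofReal (𝕜 := ℂ)
    refine h2.mono ?_ (Filter.Eventually.of_forall fun z => ?_)
    · have hm : Measurable fun z : ℝ × ℝ => Complex.exp (-(Complex.I * s * z.1)) *
          ((t / ((z.2 - z.1) ^ 2 + t ^ 2) : ℝ) : ℂ) := by fun_prop
      exact hm.aestronglyMeasurable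
    · simp only [Function.uncurry]
      rw [norm_mul]
      have : ‖Complex.exp (-(Complex.I * s * z.1))‖ = 1 := by
        rw [Complex.norm_exp]
        simp
      rw [this, one_mul]
      exact le_refl _
  rw [integral_integral_swap hI, ← integral_const_mul]
  refine integral_congr_ae (Filter.Eventually.of_forall fun x => ?_)
  simp only
  have h3 := four_po x t s ht
  have h4 : ∀ E : ℝ, t / ((x - E) ^ 2 + t ^ 2) = t / ((E - x) ^ 2 + t ^ 2) := by
    intro E
    rw [show (x - E) ^ 2 = (E - x) ^ 2 by ring]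
  simp only [h4]
  have h5 : Complex.exp (-(Complex.I * s * x) - t * |s|) =
      Complex.exp (-(t * |s|)) * Complex.exp (-(Complex.I * s * x)) := by
    rw [← Complex.exp_add]
    congr 1
    ring
  rw [h3, h5]
  ring

theorem Po_mass (m : Measure ℝ) [IsFiniteMeasure m] (t : ℝ) (ht : 0 < t) :
    ∫ E : ℝ, Po m E t = Real.pi * m.real Set.univ := by
  unfold Po
  rw [integral_integral_swap (prod_int m t ht)]
  have h1 : ∀ x : ℝ, ∫ E : ℝ, t / ((x - E) ^ 2 + t ^ 2) = Real.pi := by
    intro x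
    have h4 : ∀ E : ℝ, t / ((x - E) ^ 2 + t ^ 2) = t / ((E - x) ^ 2 + t ^ 2) := by
      intro E
      rw [show (x - E) ^ 2 = (E - x) ^ 2 by ring]
    simp only [h4]
    exact po_integral x t ht
  simp only [h1]
  rw [integral_const, smul_eq_mul, mul_comm]

theorem Po_nonneg (m : Measure ℝ) (E t : ℝ) (ht : 0 < t) : 0 ≤ Po m E t :=
  integral_nonneg fun x => by positivity

/-- the tails of the arctangent -/
theorem atan_tail (x : ℝ) (hx : 0 < x) : Real.pi / 2 - Real.arctan x ≤ 1 / x := by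
  have h1 := Real.arctan_inv_of_pos hx
  have h2 := atan_le x⁻¹ (by positivity)
  rw [h1] at h2
  rw [one_div]
  exact h2

/-- **the exponential decay from the window** -/
theorem decay (m : Measure ℝ) [IsFiniteMeasure m] (hm1 : m.real Set.univ ≤ 1)
    (c p Γ t W e3 : ℝ) (hΓ : 0 < Γ) (ht : 0 < t) (hW : 0 < W) (hp : |p - c| ≤ W / 2)
    (h : ∀ E : ℝ, |E - c| ≤ W → |Po m E t - (Γ + t) / ((E - p) ^ 2 + (Γ + t) ^ 2)| ≤ e3)
    (s : ℝ) : ‖(∫ x : ℝ, Complex.exp (-(Complex.I * s * x)) ∂m) -
      Complex.exp (-(Complex.I * s * p) - Γ * |s|)‖ ≤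
      Real.exp (t * |s|) * (2 * W * e3 + 4 * (Γ + t) / W) := by
  have hπ := Real.pi_pos
  have hπ3 := Real.pi_gt_three
  have hΓt : 0 < Γ + t := by positivity
  obtain ⟨Lz, hLz⟩ : ∃ Lz : ℝ → ℝ, Lz = fun E => (Γ + t) / ((E - p) ^ 2 + (Γ + t) ^ 2) := ⟨_, rfl⟩
  have hL0 : ∀ E, 0 ≤ Lz E := by
    intro E
    rw [hLz]
    positivity
  have hLi : Integrable Lz := by
    rw [hLz]
    exact po_integrable p (Γ + t) hΓt
  have hLint : ∫ E, Lz E = Real.pi := by
    rw [hLz]
    exact po_integral p (Γ + t) hΓt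
  have hPi := Po_vol m t ht
  obtain ⟨s0, hs0⟩ : ∃ s0, s0 = Set.Icc (c - W) (c + W) := ⟨_, rfl⟩
  have hsm : MeasurableSet s0 := by rw [hs0]; exact measurableSet_Icc
  have he3 : 0 ≤ e3 := (abs_nonneg _).trans (h c (by rw [sub_self, abs_zero]; exact hW.le))
  have hvol : (volume : Measure ℝ).real s0 = 2 * W := by
    rw [hs0, Real.volume_real_Icc, max_eq_left (by linarith)]
    ring
  have hvolt : (volume : Measure ℝ) s0 < ⊤ := by
    rw [hs0]
    exact measure_Icc_lt_top
  -- the window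
  have hw : ∫ E in s0, |Po m E t - Lz E| ≤ e3 * (2 * W) := by
    have h1 := norm_setIntegral_le_of_norm_le_const (μ := (volume : Measure ℝ)) (s := s0)
      (f := fun E => |Po m E t - Lz E|) (C := e3) hvolt (by
        intro E hE
        rw [Real.norm_eq_abs, abs_abs, hLz]
        apply h
        rw [hs0] at hE
        rw [abs_le]
        constructor <;> linarith [hE.1, hE.2])
    rw [hvol] at h1
    exact (Real.le_norm_self _).trans h1
  -- the Lorentzian outside
  have hLo : ∫ E in s0ᶜ, Lz E ≤ 4 * (Γ + t) / W := by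
    have h1 := integral_add_compl hsm hLi
    have h2 : ∫ E in s0, Lz E = Real.arctan ((c + W - p) / (Γ + t)) -
        Real.arctan ((c - W - p) / (Γ + t)) := by
      rw [hs0, integral_Icc_eq_integral_Ioc, ← intervalIntegral.integral_of_le (by linarith), hLz]
      exact lor_int p (Γ + t) _ _ hΓt
    rw [h2, hLint] at h1
    rw [abs_le] at hp
    have a1 : W / 2 ≤ c + W - p := by linarith [hp.1, hp.2]
    have a2 : W / 2 ≤ p - c + W := by linarith [hp.1, hp.2]
    have h3 := atan_tail ((c + W - p) / (Γ + t)) (by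
      apply div_pos _ hΓt
      linarith)
    have h4 := atan_tail ((p - c + W) / (Γ + t)) (by
      apply div_pos _ hΓt
      linarith)
    have h5 : Real.arctan ((c - W - p) / (Γ + t)) = -Real.arctan ((p - c + W) / (Γ + t)) := by
      rw [← Real.arctan_neg]
      congr 1
      ring
    rw [h5] at h1
    rw [one_div_div] at h3 h4
    have h6 : (Γ + t) / (c + W - p) ≤ 2 * (Γ + t) / W := by
      rw [div_le_div_iff₀ (by linarith) hW]
      nlinarith
    have h7 : (Γ + t) / (p - c + W) ≤ 2 * (Γ + t) / W := by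
      rw [div_le_div_iff₀ (by linarith) hW]
      nlinarith
    have h8 : 4 * (Γ + t) / W = 2 * (Γ + t) / W + 2 * (Γ + t) / W := by ring
    linarith
  -- the mass outside
  have hPo : ∫ E in s0ᶜ, Po m E t ≤ (∫ E in s0ᶜ, Lz E) + e3 * (2 * W) := by
    have h1 := integral_add_compl hsm hPi
    have h2 := integral_add_compl hsm hLi
    rw [Po_mass m t ht] at h1
    rw [hLint] at h2
    have h3 : Real.pi * m.real Set.univ ≤ Real.pi := mul_le_of_le_one_right hπ.le hm1
    have h4 : (∫ E in s0, Lz E) - ∫ E in s0, Po m E t ≤ e3 * (2 * W) := by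
      rw [← integral_sub hLi.integrableOn hPi.integrableOn]
      refine le_trans (integral_mono (hLi.integrableOn.sub hPi.integrableOn)
        ((hPi.sub hLi).abs.integrableOn) fun E => ?_) hw
      simp only [Pi.sub_apply]
      rw [abs_sub_comm]
      exact le_abs_self _
    linarith
  have hout : ∫ E in s0ᶜ, |Po m E t - Lz E| ≤ (∫ E in s0ᶜ, Po m E t) + ∫ E in s0ᶜ, Lz E := by
    rw [← integral_add hPi.integrableOn hLi.integrableOn]
    refine integral_mono ((hPi.sub hLi).abs.integrableOn)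
      (hPi.integrableOn.add hLi.integrableOn) fun E => ?_
    have h1 := Po_nonneg m E t ht
    have h2 := hL0 E
    rw [abs_le]
    constructor <;> linarith
  have hL1 : ∫ E, |Po m E t - Lz E| ≤ 4 * W * e3 + 8 * (Γ + t) / W := by
    have hD : Integrable fun E => |Po m E t - Lz E| := (hPi.sub hLi).abs
    rw [← integral_add_compl hsm hD]
    have : 8 * (Γ + t) / W = 4 * (Γ + t) / W + 4 * (Γ + t) / W := by ring
    linarith
  -- the Fourier transforms
  have hnE : ∀ E : ℝ, ‖Complex.exp (-(Complex.I * s * E))‖ = 1 := by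
    intro E
    rw [Complex.norm_exp]
    simp
  have f1 := four_Po m t s ht
  have f2 := four_po p (Γ + t) s hΓt
  have f3 : (∫ E : ℝ, Complex.exp (-(Complex.I * s * E)) * ((Po m E t : ℝ) : ℂ)) -
      ∫ E : ℝ, Complex.exp (-(Complex.I * s * E)) *
        (((Γ + t) / ((E - p) ^ 2 + (Γ + t) ^ 2) : ℝ) : ℂ) =
      ∫ E : ℝ, Complex.exp (-(Complex.I * s * E)) * ((Po m E t - Lz E : ℝ) : ℂ) := by
    have i1 : Integrable fun E : ℝ => Complex.exp (-(Complex.I * s * E)) *
        ((Po m E t : ℝ) : ℂ) := by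
      refine hPi.ofReal.bdd_mul (c := 1) (by fun_prop) (Filter.Eventually.of_forall fun E => ?_)
      rw [hnE]
    have i2 : Integrable fun E : ℝ => Complex.exp (-(Complex.I * s * E)) *
        (((Γ + t) / ((E - p) ^ 2 + (Γ + t) ^ 2) : ℝ) : ℂ) := by
      have := hLi.ofReal (𝕜 := ℂ)
      rw [hLz] at this
      refine this.bdd_mul (c := 1) (by fun_prop) (Filter.Eventually.of_forall fun E => ?_)
      rw [hnE]
    rw [← integral_sub i1 i2]
    refine integral_congr_ae (Filter.Eventually.of_forall fun E => ?_)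
    simp only [hLz]
    push_cast
    ring
  rw [f1, f2] at f3
  have f4 : ‖∫ E : ℝ, Complex.exp (-(Complex.I * s * E)) * ((Po m E t - Lz E : ℝ) : ℂ)‖ ≤
      4 * W * e3 + 8 * (Γ + t) / W := by
    refine (norm_integral_le_integral_norm _).trans (le_trans (le_of_eq ?_) hL1)
    refine integral_congr_ae (Filter.Eventually.of_forall fun E => ?_)
    simp only
    rw [norm_mul, hnE, one_mul, Complex.norm_real, Real.norm_eq_abs]
  rw [← f3] at f4
  obtain ⟨F, hF⟩ : ∃ F, F = ∫ x : ℝ, Complex.exp (-(Complex.I * s * x)) ∂m := ⟨_, rfl⟩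
  rw [← hF] at f4
  rw [← hF]
  have e1 : F - Complex.exp (-(Complex.I * s * p) - Γ * |s|) =
      ((Real.exp (t * |s|) * Real.pi⁻¹ : ℝ) : ℂ) *
      (Real.pi * Complex.exp (-(t * |s|)) * F - Real.pi * Complex.exp (-(Complex.I * s * p) -
        ((Γ + t : ℝ) : ℂ) * |s|)) := by
    have k1 : (Real.pi : ℂ) ≠ 0 := by exact_mod_cast hπ.ne'
    have k2 : Complex.exp (-(Complex.I * s * p) - ((Γ + t : ℝ) : ℂ) * |s|) =
        Complex.exp (-(Complex.I * s * p) - Γ * |s|) * Complex.exp (-(t * |s|)) := by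
      rw [← Complex.exp_add]
      congr 1
      push_cast
      ring
    have k3 : ((Real.exp (t * |s|) : ℝ) : ℂ) * Complex.exp (-(t * |s|)) = 1 := by
      rw [Complex.ofReal_exp, ← Complex.exp_add]
      push_cast
      rw [add_neg_cancel, Complex.exp_zero]
    rw [k2]
    push_cast at k3 ⊢
    generalize Complex.exp (-(t * |s|)) = Y at k3 ⊢
    generalize Complex.exp (t * |s|) = X at k3 ⊢
    generalize Complex.exp (-(Complex.I * s * p) - Γ * |s|) = Z
    field_simp
    linear_combination (Z - F) * k3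
  rw [e1, norm_mul, Complex.norm_real, Real.norm_of_nonneg (by positivity), mul_assoc]
  apply mul_le_mul_of_nonneg_left _ (Real.exp_pos _).le
  rw [inv_mul_le_iff₀ hπ]
  refine f4.trans ?_
  have e2 : 8 * (Γ + t) / W = 2 * (4 * (Γ + t) / W) := by ring
  have e3' : 0 ≤ 4 * (Γ + t) / W := by positivity
  have e4 : 0 ≤ W * e3 := by positivity
  rw [e2]
  nlinarith

end Pool.Agent.N559.FG
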