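import Pool.Agent.TH794.FG.Spec3
import Pool.Agent.TH794.QD.Prof
import Pool.Agent.TH794.QE.FinA

/-! The boundary value of the free resolvent. -/

set_option autoImplicit false
set_option linter.unusedSectionVars false

open scoped BigOperators Topology
open MeasureTheory Filter

namespace Pool.Agent.N559.FG

open Pool.Agent.W788.BK
open Pool.Agent.W788.LD.Spec (S)
open Pool.Agent.H4R2.LO (Zd)
open Pool.Agent.TH794.LL2
open Pool.Agent.TH794.FG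
open Pool.Agent.TH794.QD (GF F0 amp0 fin0)

variable {d : ℕ}

theorem LG_of_Rs (E t : ℝ) (u : Zd d → ℂ)
    (h : Pool.Agent.TH794.QE.Rs d (fun _ => 2 * d) 0 (2 * d - E) t u) :
    LG d 0 (fun _ => 0) 0 E t (fun x => -(u x).re) (fun x => (u x).im) := by
  have hn : ∀ x, ‖u x‖ ^ 2 = (u x).re ^ 2 + (u x).im ^ 2 := by
    intro x
    rw [← Complex.normSq_eq_norm_sq, Complex.normSq_apply]
    ring
  refine ⟨?_, ?_, ?_, ?_⟩
  · refine Summable.of_nonneg_of_le (fun x => sq_nonneg _) (fun x => ?_) h.sq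
    rw [hn x]
    nlinarith [sq_nonneg (u x).im]
  · refine Summable.of_nonneg_of_le (fun x => sq_nonneg _) (fun x => ?_) h.sq
    rw [hn x]
    nlinarith [sq_nonneg (u x).re]
  · intro x
    have h3 := congrArg Complex.re (h.eq x)
    have h4 : (if x = 0 then (1 : ℂ) else 0).re = if x = 0 then 1 else 0 := by
      split_ifs <;> simp
    rw [h4] at h3
    have h5 : ∑ i : Fin d, (-(u (x + Pi.single i 1)).re + -(u (x - Pi.single i 1)).re) =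
        -∑ i : Fin d, ((u (x + Pi.single i 1)).re + (u (x - Pi.single i 1)).re) := by
      rw [← Finset.sum_neg_distrib]
      exact Finset.sum_congr rfl fun i _ => by ring
    rw [h5]
    simp [S] at h3
    linarith
  · intro x
    have h3 := congrArg Complex.im (h.eq x)
    have h4 : (if x = 0 then (1 : ℂ) else 0).im = 0 := by
      split_ifs <;> simp
    rw [h4] at h3
    simp [S] at h3
    linarith

theorem LG_val (hO : S_OSC) (hd : 3 ≤ d) (E t : ℝ) (ht : 0 < t) (ur ui : Zd d → ℝ)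
    (h : LG d 0 (fun _ => 0) 0 E t ur ui) :
    (ur 0 : ℂ) + Complex.I * (ui 0 : ℂ) = GF (F0 d) ((E : ℂ) + ((t : ℝ) : ℂ) * Complex.I) := by
  obtain ⟨v, hv⟩ : ∃ v, v = (ur 0 : ℂ) + Complex.I * (ui 0 : ℂ) := ⟨_, rfl⟩
  obtain ⟨z, hz⟩ : ∃ z, z = (E : ℂ) + ((t : ℝ) : ℂ) * Complex.I := ⟨_, rfl⟩
  rw [← hv, ← hz]
  obtain ⟨t', ht'⟩ : ∃ t', t' = min t 1 := ⟨_, rfl⟩
  have ht0 : 0 < t' := by rw [ht']; exact lt_min ht one_pos
  have ht1 : t' ≤ 1 := by rw [ht']; exact min_le_right _ _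
  have hzi : t' ≤ z.im := by
    have : z.im = t := by rw [hz]; simp
    rw [this, ht']
    exact min_le_left _ _
  have key : ∀ n : ℕ, ‖v - GF (F0 d) z‖ ≤ (2 * d * t⁻¹ * t⁻¹ + 28 * d / t' ^ 2) *
      (1 / ((n : ℝ) + 1)) := by
    intro n
    obtain ⟨L, hL⟩ : ∃ L : ℕ, L = 4 * n + 9 := ⟨_, rfl⟩
    have hLne : NeZero L := ⟨by rw [hL]; positivity⟩
    have hn0 : (0 : ℝ) ≤ n := Nat.cast_nonneg n
    have hLr : (L : ℝ) = 4 * n + 9 := by rw [hL]; push_cast; ring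
    have hL1 : 4 * ((n : ℝ) + 1) + 4 < L := by
      rw [hLr]
      linarith
    have a1 := freeC2 (L := L) ((n : ℝ) + 1) t ht (by positivity) hL1 E ur ui h
    have a2 := fin0 (L := L) hO d hd t' ht0 ht1 z hzi
    rw [← hv, ← hz] at a1
    have e1 : v - GF (F0 d) z = (v - gL d L z) + (gL d L z - GF (F0 d) z) := by ring
    rw [e1]
    refine (norm_add_le _ _).trans ?_
    have e2 : 28 * (d : ℝ) / L / t' ^ 2 ≤ 28 * d / t' ^ 2 * (1 / ((n : ℝ) + 1)) := by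
      have h1 : 28 * (d : ℝ) / L / t' ^ 2 = 28 * d / t' ^ 2 * (1 / (L : ℝ)) := by ring
      rw [h1]
      apply mul_le_mul_of_nonneg_left _ (by positivity)
      apply one_div_le_one_div_of_le (by positivity)
      rw [hLr]
      linarith
    have e3 : 2 * d / ((n : ℝ) + 1) * t⁻¹ * t⁻¹ = 2 * d * t⁻¹ * t⁻¹ * (1 / ((n : ℝ) + 1)) := by
      ring
    rw [e3] at a1
    rw [add_mul]
    exact add_le_add a1 (a2.trans e2)
  have l1 : Tendsto (fun n : ℕ => (2 * d * t⁻¹ * t⁻¹ + 28 * d / t' ^ 2) *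
      (1 / ((n : ℝ) + 1))) atTop (𝓝 0) := by
    have := tendsto_one_div_add_atTop_nhds_zero_nat (𝕜 := ℝ)
    have h2 := this.const_mul (2 * d * t⁻¹ * t⁻¹ + 28 * d / t' ^ 2)
    rwa [mul_zero] at h2
  have h0 : ‖v - GF (F0 d) z‖ ≤ 0 := ge_of_tendsto' l1 key
  exact sub_eq_zero.1 (norm_le_zero_iff.1 h0)

/-- the boundary value of the free resolvent -/
theorem bv_g0 (hO : S_OSC) (hd : 3 ≤ d) (E0 : ℝ) : BV d E0 (GF (F0 d) (E0 : ℂ)) := by
  have hex : ∀ E t : ℝ, 0 < t → ∃ ur ui : Zd d → ℝ, LG d 0 (fun _ => 0) 0 E t ur ui := by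
    intro E t ht
    obtain ⟨u, hu⟩ := Pool.Agent.TH794.QE.rs_exists (fun _ : Zd d => (2 * d : ℝ)) (2 * d)
      (fun x => by rw [abs_of_nonneg (by positivity)]) 0 (2 * d - E) t ht
    exact ⟨_, _, LG_of_Rs E t u hu⟩
  intro E t ht
  obtain ⟨ur, ui, hLG⟩ := hex E t ht
  refine ⟨ur, ui, hLG, ?_⟩
  obtain ⟨v, hv⟩ : ∃ v, v = (ur 0 : ℂ) + Complex.I * (ui 0 : ℂ) := ⟨_, rfl⟩
  obtain ⟨z, hz⟩ : ∃ z, z = (E : ℂ) + ((t : ℝ) : ℂ) * Complex.I := ⟨_, rfl⟩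
  rw [← hv, ← hz]
  have key : ∀ ε : ℝ, 0 < ε → ‖v - GF (F0 d) ((E0 : ℂ) + ((ε : ℝ) : ℂ) * Complex.I)‖ ≤
      2 * 10 ^ d * K5 * ‖z - ((E0 : ℂ) + ((ε : ℝ) : ℂ) * Complex.I)‖ ^ (1 / 4 : ℝ) := by
    intro ε hε
    obtain ⟨ur', ui', hLG'⟩ := hex E0 ε hε
    have h1 := inf_holder hO hd E E0 t ε ht hε ur ui ur' ui' hLG hLG'
    have h2 := LG_val hO hd E0 ε hε ur' ui' hLG'
    rw [h2, ← hv, ← hz] at h1
    exact h1
  have c1 : Tendsto (fun ε : ℝ => GF (F0 d) ((E0 : ℂ) + ((ε : ℝ) : ℂ) * Complex.I)) (𝓝[>] 0)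
      (𝓝 (GF (F0 d) (E0 : ℂ))) := by
    rw [tendsto_iff_norm_sub_tendsto_zero]
    have hb : ∀ᶠ ε : ℝ in 𝓝[>] 0, ‖GF (F0 d) ((E0 : ℂ) + ((ε : ℝ) : ℂ) * Complex.I) -
        GF (F0 d) (E0 : ℂ)‖ ≤ 2 * (80 * 10 ^ d) * Pool.Agent.TH794.QD.K9 *
          ‖((E0 : ℂ) + ((ε : ℝ) : ℂ) * Complex.I) - (E0 : ℂ)‖ ^ (1 / 8 : ℝ) := by
      filter_upwards [self_mem_nhdsWithin] with ε hε
      have hε0 : (0 : ℝ) < ε := hε
      exact (amp0 hO d hd).holder _ _ (by simpa using hε0.le) (by simp)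
    have l2 : Tendsto (fun ε : ℝ => 2 * (80 * 10 ^ d) * Pool.Agent.TH794.QD.K9 *
          ‖((E0 : ℂ) + ((ε : ℝ) : ℂ) * Complex.I) - (E0 : ℂ)‖ ^ (1 / 8 : ℝ)) (𝓝[>] 0) (𝓝 0) := by
      have hc : Continuous fun ε : ℝ => 2 * (80 * 10 ^ d) * Pool.Agent.TH794.QD.K9 *
          ‖((E0 : ℂ) + ((ε : ℝ) : ℂ) * Complex.I) - (E0 : ℂ)‖ ^ (1 / 8 : ℝ) := by
        refine continuous_const.mul (Continuous.rpow_const (by fun_prop) fun _ => ?_)
        right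
        norm_num
      have h1 := (hc.tendsto 0).mono_left (nhdsWithin_le_nhds (s := Set.Ioi 0))
      simp only [Complex.ofReal_zero, zero_mul, add_zero, sub_self, norm_zero] at h1
      rw [Real.zero_rpow (by norm_num), mul_zero] at h1
      exact h1
    exact squeeze_zero' (Eventually.of_forall fun ε => norm_nonneg _) hb l2
  have l1 : Tendsto (fun ε : ℝ => ‖v - GF (F0 d) ((E0 : ℂ) + ((ε : ℝ) : ℂ) * Complex.I)‖)
      (𝓝[>] 0) (𝓝 ‖v - GF (F0 d) (E0 : ℂ)‖) := (tendsto_const_nhds.sub c1).norm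
  have l2 : Tendsto (fun ε : ℝ => 2 * 10 ^ d * K5 *
      ‖z - ((E0 : ℂ) + ((ε : ℝ) : ℂ) * Complex.I)‖ ^ (1 / 4 : ℝ)) (𝓝[>] 0)
      (𝓝 (2 * 10 ^ d * K5 * ‖z - (E0 : ℂ)‖ ^ (1 / 4 : ℝ))) := by
    have hc : Continuous fun ε : ℝ => 2 * 10 ^ d * K5 *
      ‖z - ((E0 : ℂ) + ((ε : ℝ) : ℂ) * Complex.I)‖ ^ (1 / 4 : ℝ) := by
      refine continuous_const.mul (Continuous.rpow_const (by fun_prop) fun _ => ?_)
      right
      norm_num
    have h1 := (hc.tendsto 0).mono_left (nhdsWithin_le_nhds (s := Set.Ioi 0))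
    simp only [Complex.ofReal_zero, zero_mul, add_zero] at h1
    exact h1
  refine le_of_tendsto_of_tendsto l1 l2 ?_
  filter_upwards [self_mem_nhdsWithin] with ε hε
  exact key ε hε

end Pool.Agent.N559.FG
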