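import Pool.Agent.N559.FG.Law
import Pool.Agent.N559.FG.Free

/-! The Fermi golden rule, from the parts. -/

set_option autoImplicit false
set_option linter.unusedSectionVars false

open scoped BigOperators Topology
open MeasureTheory Filter

namespace Pool.Agent.N559.FG

open Pool.Agent.W788.BK
open Pool.Agent.W788.LD.Spec (S)
open Pool.Agent.H4R2.LO (Zd)
open Pool.Agent.W788.BK.Num
open Pool.Agent.TH794.LL2
open Pool.Agent.TH794.FG
open Pool.Agent.TH794.QD (GF F0 F1 amp0 fin0)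

variable {d : ℕ}

/-- the conditions on the numbers -/
structure NumF (q0 Q1 y : ℝ) : Prop where
  one : 1 ≤ y
  n1 : 1920 * (q0⁻¹ + 1) * y * Real.exp (-(11 / 100) * y) ≤ Real.exp (-(1 / 250) * y)
  n2 : 100 * Real.exp (-(23 / 200) * y) ≤ Real.exp (-(1 / 250) * y)
  n3 : 100 * Real.exp (-(3 / 500) * y) ≤ Real.exp (-(1 / 250) * y)
  n5 : 200 * (Q1 + 1) * Real.exp (-(1 / 200) * y) ≤ Real.exp (-(1 / 250) * y)

theorem numF (q0 Q1 : ℝ) : ∀ᶠ y : ℝ in atTop, NumF q0 Q1 y := by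
  filter_upwards [eventually_ge_atTop 1,
    ev2 (1920 * (q0⁻¹ + 1)) (-(11 / 100)) (-(1 / 250)) 1 (by norm_num),
    ev2 100 (-(23 / 200)) (-(1 / 250)) 0 (by norm_num),
    ev2 100 (-(3 / 500)) (-(1 / 250)) 0 (by norm_num),
    ev2 (200 * (Q1 + 1)) (-(1 / 200)) (-(1 / 250)) 0 (by norm_num)] with y h0 h1 h2 h3 h4
  simp only [pow_one, pow_zero, mul_one] at h1 h2 h3 h4
  exact ⟨h0, h1, h2, h3, h4⟩

/-- the deterministic part -/
theorem det3 (y q0 Q1 : ℝ) (hq0 : 0 < q0) (hN : NumF q0 Q1 y)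
    (Vv M0 e0 : ℝ) (γ : ℂ) (hVv : 0 ≤ Vv) (hq : q0 ≤ Vv * γ.im) (hQ : Vv * ‖γ‖ ≤ Q1)
    (ψ : Zd d → ℂ) (hψs : (Function.support ψ).Finite)
    (hψ1 : ∑' x, ((ψ x).re ^ 2 + (-(ψ x).im) ^ 2) = 1)
    (ω : Zd d → ℝ) (R : ℝ) (a : Zd d) (ha : ‖a‖ ≤ R)
    (hS : SLaw d (Real.exp (-1 * y)) R (Real.exp (-(211 / 100) * y))
      (Real.exp (-(399 / 200) * y)) (Real.exp (1989 / 1000 * y)) (2 * d - e0)
      (Real.exp (-2 * y) * Vv) γ (fun x => (ψ x).re) (fun x => -(ψ x).im) (fun x => M0 - ω x))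
    (m : Measure ℝ) [IsFiniteMeasure m]
    (hm : Res2 d (fun x => 2 * d + Real.exp (-1 * y) * ω x) (fun x => ψ (x - a)) m) :
    (∀ α β : ℝ, α ≤ β → |m.real (Set.Icc
        (e0 + Real.exp (-1 * y) * M0 + Real.exp (-2 * y) * Vv * (γ.re + α * γ.im))
        (e0 + Real.exp (-1 * y) * M0 + Real.exp (-2 * y) * Vv * (γ.re + β * γ.im))) -
        (Real.arctan β - Real.arctan α) / Real.pi| ≤ Real.exp (-(1 / 250) * y)) ∧
    ∀ s : ℝ, |s| ≤ Real.exp (211 / 100 * y) →
      ‖(∫ x : ℝ, Complex.exp (-(Complex.I * s * x)) ∂m) -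
        Complex.exp (-(Complex.I * s * ((e0 + Real.exp (-1 * y) * M0 +
          Real.exp (-2 * y) * Vv * γ.re : ℝ) : ℂ)) -
          ((Real.exp (-2 * y) * Vv * γ.im : ℝ) : ℂ) * |s|)‖ ≤ Real.exp (-(1 / 250) * y) := by
  obtain ⟨h1, hn1, hn2, hn3, hn5⟩ := hN
  obtain ⟨lam, hlam⟩ : ∃ lam, lam = Real.exp (-1 * y) := ⟨_, rfl⟩
  obtain ⟨t, ht⟩ : ∃ t, t = Real.exp (-(211 / 100) * y) := ⟨_, rfl⟩
  obtain ⟨W, hW⟩ : ∃ W, W = Real.exp (-(399 / 200) * y) := ⟨_, rfl⟩
  obtain ⟨e3, he3⟩ : ∃ e3, e3 = Real.exp (1989 / 1000 * y) := ⟨_, rfl⟩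
  obtain ⟨s2, hs2⟩ : ∃ s2, s2 = Real.exp (-2 * y) * Vv := ⟨_, rfl⟩
  obtain ⟨Γ, hΓ⟩ : ∃ Γ, Γ = s2 * γ.im := ⟨_, rfl⟩
  obtain ⟨c, hc⟩ : ∃ c, c = e0 + lam * M0 := ⟨_, rfl⟩
  obtain ⟨p, hp⟩ : ∃ p, p = c + s2 * γ.re := ⟨_, rfl⟩
  have ht0 : 0 < t := by rw [ht]; positivity
  have hW0 : 0 < W := by rw [hW]; positivity
  have he30 : 0 < e3 := by rw [he3]; positivity
  have hs20 : 0 ≤ s2 := by rw [hs2]; positivity
  have hΓ1 : Real.exp (-2 * y) * q0 ≤ Γ := by
    rw [hΓ, hs2, mul_assoc]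
    gcongr
  have hΓ0 : 0 < Γ := lt_of_lt_of_le (by positivity) hΓ1
  have hΓ2 : Γ ≤ Real.exp (-2 * y) * Q1 := by
    rw [hΓ, hs2, mul_assoc]
    apply mul_le_mul_of_nonneg_left _ (Real.exp_pos _).le
    refine le_trans ?_ hQ
    exact mul_le_mul_of_nonneg_left ((le_abs_self _).trans (Complex.abs_im_le_norm γ)) hVv
  have hre : |s2 * γ.re| ≤ Real.exp (-2 * y) * Q1 := by
    rw [abs_mul, abs_of_nonneg hs20, hs2, mul_assoc]
    apply mul_le_mul_of_nonneg_left _ (Real.exp_pos _).le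
    refine le_trans ?_ hQ
    exact mul_le_mul_of_nonneg_left (Complex.abs_re_le_norm γ) hVv
  -- small quantities
  obtain ⟨ε, hε⟩ : ∃ ε, ε = Real.exp (-(1 / 250) * y) := ⟨_, rfl⟩
  rw [← hε] at hn1 hn2 hn3 hn5
  have hε0 : 0 < ε := by rw [hε]; positivity
  have hε1 : ε ≤ 1 := by
    rw [hε]
    exact Real.exp_le_one_iff.2 (by linarith)
  have r1 : Real.exp (-2 * y) = Real.exp (-(1 / 200) * y) * W := by
    rw [hW, ex_mul]
    norm_num
  have r2 : t = Real.exp (-(23 / 200) * y) * W := by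
    rw [ht, hW, ex_mul]
    norm_num
  have r3 : e3 * W = Real.exp (-(3 / 500) * y) := by
    rw [he3, hW, ex_mul]
    norm_num
  have r4 : t = Real.exp (-(11 / 100) * y) * Real.exp (-2 * y) := by
    rw [ht, ex_mul]
    norm_num
  have r5 : e3 * t = Real.exp (-(121 / 1000) * y) := by
    rw [he3, ht, ex_mul]
    norm_num
  have k1 : Real.exp (-2 * y) * Q1 ≤ ε / 200 * W := by
    rw [r1]
    have h2 : Real.exp (-(1 / 200) * y) * Q1 ≤ ε / 200 := by
      have : 0 < Real.exp (-(1 / 200) * y) := Real.exp_pos _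
      nlinarith
    calc Real.exp (-(1 / 200) * y) * W * Q1 = Real.exp (-(1 / 200) * y) * Q1 * W := by ring
      _ ≤ _ := by gcongr
  have k2 : t ≤ ε / 100 * W := by
    rw [r2]
    gcongr
    linarith
  have k3 : e3 * W ≤ ε / 100 := by
    rw [r3]
    linarith
  have k4 : t / Γ ≤ ε / 1920 := by
    rw [div_le_iff₀ hΓ0]
    have h2 : q0⁻¹ * Real.exp (-(11 / 100) * y) ≤ ε / 1920 := by
      have h3 : 0 < Real.exp (-(11 / 100) * y) := Real.exp_pos _
      have h4 : q0⁻¹ * Real.exp (-(11 / 100) * y) ≤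
          (q0⁻¹ + 1) * y * Real.exp (-(11 / 100) * y) := by
        gcongr
        have h5 : 0 < q0⁻¹ := by positivity
        nlinarith
      linarith
    calc t = (q0⁻¹ * Real.exp (-(11 / 100) * y)) * (Real.exp (-2 * y) * q0) := by
          rw [r4]
          field_simp
      _ ≤ ε / 1920 * Γ := by gcongr
  have k5 : y * ((1 / Γ + e3) * t) ≤ ε / 1920 := by
    have h2 : (1 / Γ + e3) * t ≤ (q0⁻¹ + 1) * Real.exp (-(11 / 100) * y) := by
      have h3 : 1 / Γ * t ≤ q0⁻¹ * Real.exp (-(11 / 100) * y) := by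
        rw [one_div, inv_mul_le_iff₀ hΓ0]
        calc t = (Real.exp (-2 * y) * q0) * (q0⁻¹ * Real.exp (-(11 / 100) * y)) := by
              rw [r4]
              field_simp
          _ ≤ _ := by gcongr
      have h4 : e3 * t ≤ Real.exp (-(11 / 100) * y) := by
        rw [r5]
        apply Real.exp_le_exp.2
        nlinarith
      linarith
    have h3 : y * ((1 / Γ + e3) * t) ≤ y * ((q0⁻¹ + 1) * Real.exp (-(11 / 100) * y)) := by
      gcongr
    linarith
  -- the window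
  have hpc : |p - c| ≤ W / 4 := by
    have : p - c = s2 * γ.re := by rw [hp]; ring
    rw [this]
    nlinarith
  have h4t : 4 * t ≤ W := by nlinarith
  have hwin : ∀ E : ℝ, |E - c| ≤ W →
      |Po m E t - (Γ + t) / ((E - p) ^ 2 + (Γ + t) ^ 2)| ≤ e3 := by
    intro E hE
    have hψa : (Function.support fun x => ψ (x - a)).Finite := by
      have : (Function.support fun x => ψ (x - a)) = (fun x => x + a) '' Function.support ψ := by
        ext x
        simp only [Function.mem_support, Set.mem_image]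
        constructor
        · intro hx
          exact ⟨x - a, hx, sub_add_cancel x a⟩
        · rintro ⟨z, hz, rfl⟩
          rwa [add_sub_cancel_right]
      rw [this]
      exact hψs.image _
    obtain ⟨ur, ui, hLS, hPo⟩ := po_spec3 (fun x => 2 * d + Real.exp (-1 * y) * ω x)
      (fun x => M0 - ω x) (2 * d + Real.exp (-1 * y) * M0) (Real.exp (-1 * y))
      (fun x => by ring) (fun x => ψ (x - a)) m hm hψa E t ht0
    rw [← hlam] at hLS
    have hE' : |2 * d + lam * M0 - E - (2 * d - e0)| ≤ W := by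
      have : 2 * (d : ℝ) + lam * M0 - E - (2 * d - e0) = -(E - c) := by rw [hc]; ring
      rw [this, abs_neg]
      exact hE
    rw [← hlam, ← ht, ← hW, ← he3, ← hs2] at hS
    have h2 := hS a ha (2 * d + lam * M0 - E) hE' ur ui hLS
    rw [Lo_eq] at h2
    rw [hPo]
    have e1 : 2 * (d : ℝ) - e0 - (2 * d + lam * M0 - E) - s2 * γ.re = E - p := by
      rw [hp, hc]
      ring
    rw [e1, ← hΓ] at h2
    exact h2
  have hmass : m.real Set.univ ≤ 1 := by
    have hψa : (Function.support fun x => ψ (x - a)).Finite := by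
      have : (Function.support fun x => ψ (x - a)) = (fun x => x + a) '' Function.support ψ := by
        ext x
        simp only [Function.mem_support, Set.mem_image]
        constructor
        · intro hx
          exact ⟨x - a, hx, sub_add_cancel x a⟩
        · rintro ⟨z, hz, rfl⟩
          rwa [add_sub_cancel_right]
      rw [this]
      exact hψs.image _
    refine mass_spec3 (fun x => 2 * d + Real.exp (-1 * y) * ω x) (fun x => ψ (x - a)) m hm hψa ?_
    rw [← hψ1]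
    exact (Equiv.subRight a).tsum_eq fun x => (ψ x).re ^ 2 + (-(ψ x).im) ^ 2
  obtain ⟨N, hN⟩ : ∃ N : ℕ, N = ⌈4 * y⌉₊ := ⟨_, rfl⟩
  have hN1 : 4 * y ≤ N := by rw [hN]; exact Nat.le_ceil _
  have hN2 : (N : ℝ) ≤ 4 * y + 1 := by
    rw [hN]
    exact (Nat.ceil_lt_add_one (by linarith)).le
  have hpow : (1 / 2 : ℝ) ^ N ≤ t := by
    have h1 : (1 / 2 : ℝ) ^ N = Real.exp (-(N * Real.log 2)) := by
      rw [Real.exp_neg, mul_comm, Real.exp_mul, Real.exp_log (by norm_num), Real.rpow_natCast,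
        one_div, inv_pow]
    rw [h1, ht]
    apply Real.exp_le_exp.2
    have h2 := Real.log_two_gt_d9
    have h3 : 4 * y * 0.69 ≤ N * Real.log 2 := mul_le_mul hN1 (by linarith) (by norm_num)
      (by positivity)
    linarith
  have hW1 : W ≤ 1 := by
    rw [hW]
    exact Real.exp_le_one_iff.2 (by linarith)
  have htε : t ≤ ε / 100 := by nlinarith
  have htW : 4 * t / W ≤ ε / 25 := by
    rw [div_le_iff₀ hW0]
    linarith
  constructor
  · intro α β hαβ
    have hin : ∀ A B : ℝ, A ≤ B → |A - p| ≤ W / 4 → |B - p| ≤ W / 4 → |m.real (Set.Icc A B) -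
        (Real.arctan ((B - p) / Γ) - Real.arctan ((A - p) / Γ)) / Real.pi| ≤ ε / 4 := by
      intro A B hAB hA hB
      refine (law_in m hmass c p Γ t W e3 hΓ0 ht0 h4t hpc hwin N A B hAB hA hB).trans ?_
      have h2 : ((N : ℝ) + 1) * (8 * (1 / Γ + e3) * t) ≤ 6 * y * (8 * (1 / Γ + e3) * t) := by
        have : (N : ℝ) + 1 ≤ 6 * y := by linarith
        gcongr
      have h3 : 6 * y * (8 * (1 / Γ + e3) * t) = 48 * (y * ((1 / Γ + e3) * t)) := by ring
      linarith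
    have hall := law_all m hmass p Γ (W / 4) (ε / 4) hΓ0 (by positivity) hin (p + α * Γ)
      (p + β * Γ) (by nlinarith)
    have a1 : (p + β * Γ - p) / Γ = β := by field_simp; ring
    have a2 : (p + α * Γ - p) / Γ = α := by field_simp; ring
    rw [a1, a2] at hall
    have a3 : ∀ α : ℝ, e0 + Real.exp (-1 * y) * M0 + Real.exp (-2 * y) * Vv * (γ.re + α * γ.im) =
        p + α * Γ := by
      intro α
      rw [hp, hc, hΓ, hs2, hlam]
      ring
    rw [a3, a3, ← hε]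
    refine hall.trans ?_
    have h2 : 2 * Γ / (W / 4) ≤ ε / 25 := by
      rw [div_le_iff₀ (by positivity)]
      nlinarith
    linarith
  · intro s hs
    have h2 := decay m hmass c p Γ t W e3 hΓ0 ht0 hW0 (by linarith) hwin s
    have a1 : e0 + Real.exp (-1 * y) * M0 + Real.exp (-2 * y) * Vv * γ.re = p := by
      rw [hp, hc, hs2, hlam]
    have a2 : Real.exp (-2 * y) * Vv * γ.im = Γ := by rw [hΓ, hs2]
    rw [a1, a2, ← hε]
    refine h2.trans ?_
    have h3 : t * |s| ≤ 1 := by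
      calc t * |s| ≤ t * Real.exp (211 / 100 * y) := by gcongr
        _ = 1 := by
          rw [ht, ex_mul]
          norm_num
    have h4 : Real.exp (t * |s|) ≤ 3 := by
      calc Real.exp (t * |s|) ≤ Real.exp 1 := Real.exp_le_exp.2 h3
        _ ≤ 3 := by linarith [Real.exp_one_lt_d9]
    have h5 : 4 * (Γ + t) / W ≤ ε / 10 := by
      rw [div_le_iff₀ hW0]
      nlinarith
    have h6 : 0 ≤ 4 * (Γ + t) / W := by positivity
    have h7 : 0 ≤ W * e3 := by positivity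
    calc Real.exp (t * |s|) * (2 * W * e3 + 4 * (Γ + t) / W) ≤
        3 * (2 * W * e3 + 4 * (Γ + t) / W) := by
          apply mul_le_mul_of_nonneg_right h4
          nlinarith
      _ ≤ ε := by nlinarith

/-- **the Fermi golden rule** -/
theorem fin (hES : S_ES) (hTH : S_THIRD) (hFL : S_FLUCT) (hIN : S_INV) (hO : S_OSC)
    (hSU : S_SUP) (hQB : S_QB) (hLO : S_LOW) (hAD : S_ADM)
    (d : ℕ) (hd : 3 ≤ d) (κ c1 : ℝ) (hc1 : 0 < c1)
    (hlow : ∀ E : ℝ, |E| ≤ 2 * d - κ → 2 * c1 ≤ (GF (F0 d) (E : ℂ)).im)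
    (b v : ℝ) (hb : 0 < b) (hv : 0 < v) :
    ∃ lam0 : ℝ, 0 < lam0 ∧ ∀ (μ : Measure ℝ), IsProbabilityMeasure μ →
      (∀ᵐ s ∂μ, |s| ≤ b) → ∀ M V : ℝ, ∫ s, s ∂μ = M → ∫ s, (s - M) ^ 2 ∂μ = V → v ≤ V →
      ∀ lam : ℝ, 0 < lam → lam ≤ lam0 →
      ∀ e0 : ℝ, |2 * d - e0| ≤ 2 * d - κ →
      ∀ ψ : Zd d → ℂ, (∀ x, lam ^ (-5 : ℝ) < ‖x‖ → ψ x = 0) → ∑' x, ‖ψ x‖ ^ 2 = 1 →
        ∑' x, ‖S ψ x - ((2 * d - e0 : ℝ) : ℂ) * ψ x‖ ^ 2 ≤ lam ^ (41 / 10 : ℝ) →
      ∃ G : Set (Zd d → ℝ), MeasurableSet G ∧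
        1 - Real.exp (-lam ^ (-(1 / 100) : ℝ)) ≤
          (Measure.infinitePi fun _ : Zd d => μ).real G ∧
        ∀ ω ∈ G, ∀ a : Zd d, ‖a‖ ≤ Real.exp (lam ^ (-(1 / 100) : ℝ)) →
          ∀ m : Measure ℝ, IsFiniteMeasure m →
          Res2 d (fun x => 2 * d + lam * ω x) (fun x => ψ (x - a)) m →
          (∀ α β : ℝ, α ≤ β → |m.real (Set.Icc
            (e0 + lam * M + lam ^ 2 * V * ((GF (F0 d) ((2 * d - e0 : ℝ) : ℂ)).re +
              α * (GF (F0 d) ((2 * d - e0 : ℝ) : ℂ)).im))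
            (e0 + lam * M + lam ^ 2 * V * ((GF (F0 d) ((2 * d - e0 : ℝ) : ℂ)).re +
              β * (GF (F0 d) ((2 * d - e0 : ℝ) : ℂ)).im))) -
            (Real.arctan β - Real.arctan α) / Real.pi| ≤ lam ^ (1 / 250 : ℝ)) ∧
          ∀ s : ℝ, |s| ≤ lam ^ (-(211 / 100) : ℝ) →
            ‖(∫ x : ℝ, Complex.exp (-(Complex.I * s * x)) ∂m) -
              Complex.exp (-(Complex.I * s * ((e0 + lam * M +
                lam ^ 2 * V * (GF (F0 d) ((2 * d - e0 : ℝ) : ℂ)).re : ℝ) : ℂ)) -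
                ((lam ^ 2 * V * (GF (F0 d) ((2 * d - e0 : ℝ) : ℂ)).im : ℝ) : ℂ) * |s|)‖ ≤
              lam ^ (1 / 250 : ℝ) := by
  obtain ⟨y0, h0⟩ := engine3 hES hTH hFL hIN hSU hQB hLO hAD d hd (2 * b) v c1 (by linarith)
    hv hc1
  obtain ⟨Cγ, hCγ⟩ : ∃ Cγ : ℝ, Cγ = 2 + 2 * 10 ^ d * K5 := ⟨_, rfl⟩
  have hCγ0 : 0 ≤ Cγ := by
    rw [hCγ]
    have := K5_nonneg
    positivity
  obtain ⟨y2, hy2⟩ := Filter.eventually_atTop.1 (numF (v * (2 * c1)) (4 * b ^ 2 * Cγ))
  obtain ⟨y1, hy1⟩ : ∃ y1, y1 = max (max y0 y2) 1 := ⟨_, rfl⟩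
  refine ⟨Real.exp (-y1), Real.exp_pos _, ?_⟩
  intro μ hμ hμb M0 V hM0 hV hvV lam hlam hlam0 e0 he0 ψ hψs hψ1 hψ2
  obtain ⟨y, hy⟩ : ∃ y, y = Real.log (1 / lam) := ⟨_, rfl⟩
  have hloglam : Real.log lam = -y := by
    rw [hy, one_div, Real.log_inv, neg_neg]
  have hyy1 : y1 ≤ y := by
    have h1 := Real.log_le_log hlam hlam0
    rw [Real.log_exp, hloglam] at h1
    linarith
  have hyy0 : y0 ≤ y := le_trans (by rw [hy1]; exact (le_max_left _ _).trans (le_max_left _ _)) hyy1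
  have hyy2 : y2 ≤ y := le_trans (by rw [hy1]; exact (le_max_right _ _).trans (le_max_left _ _))
    hyy1
  have hnum := hy2 y hyy2
  have e1 : lam ^ (-(1 / 100) : ℝ) = Real.exp (y / 100) := by
    rw [Real.rpow_def_of_pos hlam, hloglam]
    congr 1
    ring
  have e2 : lam ^ (41 / 10 : ℝ) = Real.exp (-(41 / 20) * y) ^ 2 := by
    rw [Real.rpow_def_of_pos hlam, hloglam, ← Real.exp_nat_mul]
    congr 1
    push_cast
    ring
  have e2' : lam ^ (1 / 250 : ℝ) = Real.exp (-(1 / 250) * y) := by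
    rw [Real.rpow_def_of_pos hlam, hloglam]
    congr 1
    ring
  have e3 : Real.exp (-1 * y) = lam := by
    rw [neg_one_mul, ← hloglam, Real.exp_log hlam]
  have e4 : lam ^ (-5 : ℝ) = Real.exp (5 * y) := by
    rw [Real.rpow_def_of_pos hlam, hloglam]
    congr 1
    ring
  have e5 : lam ^ (-(211 / 100) : ℝ) = Real.exp (211 / 100 * y) := by
    rw [Real.rpow_def_of_pos hlam, hloglam]
    congr 1
    ring
  have e6 : Real.exp (-2 * y) = lam ^ 2 := by
    rw [← e3, ← Real.exp_nat_mul]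
    congr 1
    push_cast
    ring
  rw [e4] at hψs
  rw [e2] at hψ2
  -- the centred law
  have hint : Integrable (fun s : ℝ => s) μ := by
    refine Integrable.of_bound (C := b) measurable_id.aestronglyMeasurable ?_
    filter_upwards [hμb] with s hs
    rw [Real.norm_eq_abs]
    exact hs
  have hM0b : |M0| ≤ b := by
    rw [← hM0, ← Real.norm_eq_abs]
    have h1 := norm_integral_le_of_norm_le_const (μ := μ) (f := fun s : ℝ => s) (C := b) (by
      filter_upwards [hμb] with s hs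
      rw [Real.norm_eq_abs]
      exact hs)
    rw [probReal_univ, mul_one] at h1
    exact h1
  have hmm : Measurable fun s : ℝ => M0 - s := by fun_prop
  have hνp : IsProbabilityMeasure (μ.map fun s => M0 - s) :=
    Measure.isProbabilityMeasure_map hmm.aemeasurable
  have hνb : ∀ᵐ s ∂(μ.map fun s => M0 - s), |s| ≤ 2 * b := by
    rw [ae_map_iff hmm.aemeasurable (measurableSet_le (by fun_prop) (by fun_prop))]
    filter_upwards [hμb] with s hs
    have h1 := abs_sub M0 s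
    linarith
  have hν0 : ∫ s, s ∂(μ.map fun s => M0 - s) = 0 := by
    rw [integral_map hmm.aemeasurable (by fun_prop), integral_sub (integrable_const _) hint,
      integral_const, probReal_univ, one_smul, hM0, sub_self]
  have hν2 : ∫ s, s ^ 2 ∂(μ.map fun s => M0 - s) = V := by
    rw [integral_map hmm.aemeasurable (by fun_prop), ← hV]
    refine integral_congr_ae (Filter.Eventually.of_forall fun s => ?_)
    simp only
    ring
  have hV4 : V ≤ 4 * b ^ 2 := by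
    rw [← hV]
    have h1 := norm_integral_le_of_norm_le_const (μ := μ) (f := fun s : ℝ => (s - M0) ^ 2)
      (C := 4 * b ^ 2) (by
        filter_upwards [hμb] with s hs
        rw [Real.norm_eq_abs, abs_of_nonneg (sq_nonneg _)]
        have h2 := abs_sub s M0
        have h3 : |s - M0| ≤ 2 * b := by linarith
        have h4 := sq_abs (s - M0)
        have h5 := abs_nonneg (s - M0)
        nlinarith)
    rw [probReal_univ, mul_one] at h1
    exact (Real.le_norm_self _).trans h1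
  have hV0 : 0 < V := hv.trans_le hvV
  obtain ⟨γ, hγ⟩ : ∃ γ, γ = GF (F0 d) ((2 * d - e0 : ℝ) : ℂ) := ⟨_, rfl⟩
  have hBV := bv_g0 hO hd (2 * d - e0)
  rw [← hγ] at hBV
  have hγ1 : 2 * c1 ≤ γ.im := by
    rw [hγ]
    exact hlow _ he0
  have hγ2 : ‖γ‖ ≤ Cγ := by
    rw [hCγ]
    exact bv_bd _ γ hBV
  rw [← hγ]
  -- the source
  have hre2 : ∀ x, ‖ψ x‖ ^ 2 = (ψ x).re ^ 2 + (-(ψ x).im) ^ 2 := by
    intro x
    rw [← Complex.normSq_eq_norm_sq, Complex.normSq_apply]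
    ring
  have hψ1' : ∑' x, ((ψ x).re ^ 2 + (-(ψ x).im) ^ 2) = 1 := by
    rw [← hψ1]
    exact tsum_congr fun x => (hre2 x).symm
  have hfs : (Function.support ψ).Finite := by
    have h1 := fin_supp (Real.exp (5 * y)) (fun x => ‖ψ x‖) (fun x hx => by
      rw [hψs x hx, norm_zero])
    refine h1.subset fun x hx => ?_
    rw [Function.mem_support] at hx ⊢
    exact norm_ne_zero_iff.2 hx
  have hψ2' : ∑' x, ((∑ i, ((ψ (x + Pi.single i 1)).re + (ψ (x - Pi.single i 1)).re) -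
        (2 * d - e0) * (ψ x).re) ^ 2 +
      (∑ i, (-(ψ (x + Pi.single i 1)).im + -(ψ (x - Pi.single i 1)).im) -
        (2 * d - e0) * -(ψ x).im) ^ 2) ≤ Real.exp (-(41 / 20) * y) ^ 2 := by
    refine le_trans (le_of_eq (tsum_congr fun x => ?_)) hψ2
    rw [← Complex.normSq_eq_norm_sq, Complex.normSq_apply]
    have h5 : ∑ i : Fin d, (-(ψ (x + Pi.single i 1)).im + -(ψ (x - Pi.single i 1)).im) =
        -∑ i : Fin d, ((ψ (x + Pi.single i 1)).im + (ψ (x - Pi.single i 1)).im) := by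
      rw [← Finset.sum_neg_distrib]
      exact Finset.sum_congr rfl fun i _ => by ring
    rw [h5]
    simp only [S, Complex.sub_re, Complex.sub_im, Complex.re_sum, Complex.im_sum, Complex.add_re,
      Complex.add_im, Complex.re_ofReal_mul, Complex.im_ofReal_mul]
    ring
  obtain ⟨G, hG, hP, hL⟩ := h0 y hyy0 _ hνp hνb hν0 V hν2 hvV (2 * d - e0) γ hγ1 hBV
    (fun x => (ψ x).re) (fun x => -(ψ x).im) (fun x hx => by rw [hψs x hx, Complex.zero_re])
    (fun x hx => by rw [hψs x hx, Complex.zero_im, neg_zero]) hψ1' hψ2'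
  have hTm : Measurable (fun (ω : Zd d → ℝ) x => M0 - ω x) := by fun_prop
  have hlaw : (Measure.infinitePi fun _ : Zd d => μ).map (fun ω x => M0 - ω x) =
      Measure.infinitePi fun _ : Zd d => μ.map fun s => M0 - s :=
    Measure.infinitePi_map_pi (μ := fun _ : Zd d => μ)
      (f := fun _ (s : ℝ) => M0 - s) (fun _ => by fun_prop)
  refine ⟨(fun ω x => M0 - ω x) ⁻¹' G, hTm hG, ?_, ?_⟩
  · have h1 : (Measure.infinitePi fun _ : Zd d => μ).real ((fun ω x => M0 - ω x) ⁻¹' G) =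
        (Measure.infinitePi fun _ : Zd d => μ.map fun s => M0 - s).real G := by
      rw [← hlaw, map_measureReal_apply hTm hG]
    rw [h1, e1]
    exact hP
  · intro ω hω a ha m hm hr
    rw [e1] at ha
    have hdet := det3 y (v * (2 * c1)) (4 * b ^ 2 * Cγ) (by positivity) hnum V M0 e0
      γ hV0.le (by gcongr) (by gcongr) ψ hfs hψ1' ω _ a ha (hL _ hω) m (by rw [e3]; exact hr)
    rw [e3, e6, ← e2', ← e5] at hdet
    exact hdet

end Pool.Agent.N559.FG
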