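import Pool.Agent.N559.FG.Decay

/-! The Cauchy law of intervals. -/

set_option autoImplicit false

open scoped BigOperators
open MeasureTheory Set

namespace Pool.Agent.N559.FG

open Pool.Agent.TH794.LL2

/-- the Cauchy law inside the window -/
theorem law_in (m : Measure ℝ) [IsFiniteMeasure m] (hm1 : m.real Set.univ ≤ 1)
    (c p Γ t W e3 : ℝ) (hΓ : 0 < Γ) (ht : 0 < t) (hW : 4 * t ≤ W) (hp : |p - c| ≤ W / 4)
    (h : ∀ E : ℝ, |E - c| ≤ W → |Po m E t - (Γ + t) / ((E - p) ^ 2 + (Γ + t) ^ 2)| ≤ e3)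
    (N : ℕ) (A B : ℝ) (hAB : A ≤ B) (hA : |A - p| ≤ W / 4) (hB : |B - p| ≤ W / 4) :
    |m.real (Set.Icc A B) -
      (Real.arctan ((B - p) / Γ) - Real.arctan ((A - p) / Γ)) / Real.pi| ≤
      2 * (((N + 1) * (8 * (1 / Γ + e3) * t) + 2 * (1 / 2 : ℝ) ^ N) + 4 * t / W) +
        e3 * W + t / Γ := by
  have hπ := Real.pi_pos
  have hπ3 := Real.pi_gt_three
  have hW0 : 0 < W := by linarith
  have hΓt : 0 < Γ + t := by positivity
  have he3 : 0 ≤ e3 := (abs_nonneg _).trans (h c (by rw [sub_self, abs_zero]; exact hW0.le))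
  have hK : ∀ E : ℝ, |E - c| ≤ W → Po m E t ≤ 1 / Γ + e3 := by
    intro E hE
    have h1 := (abs_le.1 (h E hE)).2
    have h2 : (Γ + t) / ((E - p) ^ 2 + (Γ + t) ^ 2) ≤ 1 / Γ := by
      rw [div_le_div_iff₀ (by positivity) hΓ]
      nlinarith [sq_nonneg (E - p), mul_pos hΓ ht, sq_nonneg t]
    linarith
  have hAc : |A - c| ≤ W / 2 := by
    have := abs_sub_le A p c
    linarith
  have hBc : |B - c| ≤ W / 2 := by
    have := abs_sub_le B p c
    linarith
  have e1 := smooth_int m t A B ht hAB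
  have e2 := err_loc m hm1 t (1 / Γ + e3) W c B ht (by positivity) hW hK hBc N
  have e3' := err_loc m hm1 t (1 / Γ + e3) W c A ht (by positivity) hW hK hAc N
  -- the comparison of the smoothed measures
  have hPi : IntervalIntegrable (fun E => Po m E t) volume A B :=
    (Po_vol m t ht).intervalIntegrable
  have hLi : IntervalIntegrable (fun E => (Γ + t) / ((E - p) ^ 2 + (Γ + t) ^ 2)) volume A B :=
    (po_integrable p (Γ + t) hΓt).intervalIntegrable
  have e4 : |(∫ E in A..B, Po m E t) - ∫ E in A..B, (Γ + t) / ((E - p) ^ 2 + (Γ + t) ^ 2)| ≤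
      e3 * (W / 2) := by
    rw [← intervalIntegral.integral_sub hPi hLi]
    have h1 := intervalIntegral.norm_integral_le_of_norm_le_const (a := A) (b := B)
      (f := fun E => Po m E t - (Γ + t) / ((E - p) ^ 2 + (Γ + t) ^ 2)) (C := e3) (by
        intro E hE
        rw [Set.uIoc_of_le hAB] at hE
        rw [Real.norm_eq_abs]
        apply h
        rw [abs_le] at hAc hBc ⊢
        constructor <;> linarith [hE.1, hE.2, hAc.1, hAc.2, hBc.1, hBc.2])
    rw [Real.norm_eq_abs, abs_of_nonneg (by linarith : 0 ≤ B - A)] at h1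
    refine h1.trans (mul_le_mul_of_nonneg_left ?_ he3)
    rw [abs_le] at hA hB
    linarith [hA.1, hB.2]
  rw [lor_int p (Γ + t) A B hΓt] at e4
  have w1 := atan_width (B - p) Γ t hΓ ht.le
  have w2 := atan_width (A - p) Γ t hΓ ht.le
  have e5 : |Real.pi⁻¹ * (∫ E in A..B, Po m E t) -
      (Real.arctan ((B - p) / Γ) - Real.arctan ((A - p) / Γ)) / Real.pi| ≤
      e3 * W + t / Γ := by
    have h1 : Real.pi⁻¹ * (∫ E in A..B, Po m E t) -
      (Real.arctan ((B - p) / Γ) - Real.arctan ((A - p) / Γ)) / Real.pi =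
      Real.pi⁻¹ * (((∫ E in A..B, Po m E t) -
        (Real.arctan ((B - p) / (Γ + t)) - Real.arctan ((A - p) / (Γ + t)))) +
        ((Real.arctan ((B - p) / (Γ + t)) - Real.arctan ((B - p) / Γ)) -
        (Real.arctan ((A - p) / (Γ + t)) - Real.arctan ((A - p) / Γ)))) := by
      field_simp
      ring
    rw [h1, abs_mul, abs_of_pos (inv_pos.2 hπ), inv_mul_le_iff₀ hπ]
    refine (abs_add_le _ _).trans ?_
    have h2 := abs_sub (Real.arctan ((B - p) / (Γ + t)) - Real.arctan ((B - p) / Γ))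
      (Real.arctan ((A - p) / (Γ + t)) - Real.arctan ((A - p) / Γ))
    have h3 : t / (2 * Γ) = t / Γ / 2 := by
      field_simp
    have h4 : 0 ≤ t / Γ := by positivity
    have h5 : 0 ≤ e3 * W := by positivity
    rw [h3] at w1 w2
    nlinarith
  have e6 := abs_sub_le (m.real (Set.Icc A B)) (Real.pi⁻¹ * (∫ E in A..B, Po m E t))
    ((Real.arctan ((B - p) / Γ) - Real.arctan ((A - p) / Γ)) / Real.pi)
  linarith

/-- the Cauchy law of all intervals -/
theorem law_all (m : Measure ℝ) [IsFiniteMeasure m] (hm1 : m.real Set.univ ≤ 1)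
    (p Γ X ε : ℝ) (hΓ : 0 < Γ) (hX : 0 < X)
    (h : ∀ A B : ℝ, A ≤ B → |A - p| ≤ X → |B - p| ≤ X → |m.real (Set.Icc A B) -
      (Real.arctan ((B - p) / Γ) - Real.arctan ((A - p) / Γ)) / Real.pi| ≤ ε)
    (A B : ℝ) (hAB : A ≤ B) :
    |m.real (Set.Icc A B) -
      (Real.arctan ((B - p) / Γ) - Real.arctan ((A - p) / Γ)) / Real.pi| ≤
      2 * ε + 2 * Γ / X := by
  have hπ := Real.pi_pos
  have hπ3 := Real.pi_gt_three
  obtain ⟨I, hI⟩ : ∃ I, I = Set.Icc (p - X) (p + X) := ⟨_, rfl⟩
  have hIm : MeasurableSet I := by rw [hI]; exact measurableSet_Icc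
  obtain ⟨τ, hτ⟩ : ∃ τ, τ = (Real.pi / 2 - Real.arctan (X / Γ)) / Real.pi := ⟨_, rfl⟩
  have hτ0 : 0 ≤ τ := by
    rw [hτ]
    apply div_nonneg _ hπ.le
    linarith [Real.arctan_lt_pi_div_two (X / Γ)]
  have hτ1 : τ ≤ Γ / X / 2 := by
    have h1 := atan_tail (X / Γ) (by positivity)
    rw [one_div_div] at h1
    have h2 : 0 ≤ Γ / X := by positivity
    rw [hτ, div_le_iff₀ hπ]
    nlinarith
  have hτπ : Real.arctan (X / Γ) = Real.pi / 2 - Real.pi * τ := by
    rw [hτ]
    field_simp
    ring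
  have hε : 0 ≤ ε := (abs_nonneg _).trans (h p p le_rfl (by rw [sub_self, abs_zero]; exact hX.le)
    (by rw [sub_self, abs_zero]; exact hX.le))
  -- the mass outside
  have hout : m.real Iᶜ ≤ 2 * τ + ε := by
    have h1 := h (p - X) (p + X) (by linarith)
      (by rw [show p - X - p = -X by ring, abs_neg, abs_of_pos hX])
      (by rw [show p + X - p = X by ring, abs_of_pos hX])
    rw [show p - X - p = -X by ring, show p + X - p = X by ring, neg_div, Real.arctan_neg,
      hτπ, ← hI] at h1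
    have h2 := (abs_le.1 h1).1
    have h3 : (Real.pi / 2 - Real.pi * τ - -(Real.pi / 2 - Real.pi * τ)) / Real.pi =
        1 - 2 * τ := by
      field_simp
      ring
    rw [h3] at h2
    have h4 := measureReal_add_measureReal_compl (μ := m) hIm
    linarith
  have hsplit := measureReal_inter_add_sdiff (μ := m) (s := Set.Icc A B) (t := I) hIm
  have hdiff : m.real (Set.Icc A B \ I) ≤ m.real Iᶜ := measureReal_mono (fun x hx => hx.2)
  have hdiff0 : 0 ≤ m.real (Set.Icc A B \ I) := measureReal_nonneg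
  have hmono : ∀ x y : ℝ, x ≤ y → Real.arctan ((x - p) / Γ) ≤ Real.arctan ((y - p) / Γ) := by
    intro x y hxy
    apply Real.arctan_mono
    gcongr
  have hub : ∀ x : ℝ, Real.arctan ((x - p) / Γ) ≤ Real.pi / 2 := fun x =>
    (Real.arctan_lt_pi_div_two _).le
  have hlb : ∀ x : ℝ, -(Real.pi / 2) ≤ Real.arctan ((x - p) / Γ) := fun x =>
    (Real.neg_pi_div_two_lt_arctan _).le
  have hr : Real.arctan ((p + X - p) / Γ) = Real.pi / 2 - Real.pi * τ := by
    rw [show p + X - p = X by ring, hτπ]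
  have hl : Real.arctan ((p - X - p) / Γ) = -(Real.pi / 2 - Real.pi * τ) := by
    rw [show p - X - p = -X by ring, neg_div, Real.arctan_neg, hτπ]
  have hfin : 2 * Γ / X = 4 * (Γ / X / 2) := by ring
  rw [hfin, ← hsplit, hI, Set.Icc_inter_Icc, ← hI]
  obtain ⟨A', hA'⟩ : ∃ A', A' = max A (p - X) := ⟨_, rfl⟩
  obtain ⟨B', hB'⟩ : ∃ B', B' = min B (p + X) := ⟨_, rfl⟩
  have hsup : A ⊔ (p - X) = A' := hA'.symm
  have hinf : B ⊓ (p + X) = B' := hB'.symm
  rw [hsup, hinf]
  obtain ⟨fA, hfA⟩ : ∃ fA, fA = Real.arctan ((A - p) / Γ) := ⟨_, rfl⟩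
  obtain ⟨fB, hfB⟩ : ∃ fB, fB = Real.arctan ((B - p) / Γ) := ⟨_, rfl⟩
  rw [← hfA, ← hfB]
  rw [abs_le]
  by_cases hAB' : A' ≤ B'
  · have a1 : p - X ≤ A' := by rw [hA']; exact le_max_right _ _
    have a2 : A ≤ A' := by rw [hA']; exact le_max_left _ _
    have b1 : B' ≤ p + X := by rw [hB']; exact min_le_right _ _
    have b2 : B' ≤ B := by rw [hB']; exact min_le_left _ _
    have h1 := h A' B' hAB' (by rw [abs_le]; constructor <;> linarith)
      (by rw [abs_le]; constructor <;> linarith)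
    obtain ⟨gA, hgA⟩ : ∃ gA, gA = Real.arctan ((A' - p) / Γ) := ⟨_, rfl⟩
    obtain ⟨gB, hgB⟩ : ∃ gB, gB = Real.arctan ((B' - p) / Γ) := ⟨_, rfl⟩
    rw [← hgA, ← hgB, abs_le] at h1
    have kA : 0 ≤ gA - fA ∧ gA - fA ≤ Real.pi * τ := by
      rcases le_total A (p - X) with hc | hc
      · have e1 : A' = p - X := by rw [hA', max_eq_right hc]
        rw [hgA, hfA, e1, hl]
        constructor
        · have := hmono A (p - X) hc
          rw [hl] at this
          linarith
        · linarith [hlb A]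
      · have e1 : A' = A := by rw [hA', max_eq_left hc]
        rw [hgA, hfA, e1, sub_self]
        exact ⟨le_rfl, by positivity⟩
    have kB : 0 ≤ fB - gB ∧ fB - gB ≤ Real.pi * τ := by
      rcases le_total B (p + X) with hc | hc
      · have e1 : B' = B := by rw [hB', min_eq_left hc]
        rw [hgB, hfB, e1, sub_self]
        exact ⟨le_rfl, by positivity⟩
      · have e1 : B' = p + X := by rw [hB', min_eq_right hc]
        rw [hgB, hfB, e1, hr]
        constructor
        · have := hmono (p + X) B hc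
          rw [hr] at this
          linarith
        · linarith [hub B]
    have h2 : (fB - fA) / Real.pi = (gB - gA) / Real.pi + ((fB - gB) + (gA - fA)) / Real.pi := by
      field_simp
      ring
    have h3 : 0 ≤ ((fB - gB) + (gA - fA)) / Real.pi := by
      apply div_nonneg _ hπ.le
      linarith [kA.1, kB.1]
    have h4 : ((fB - gB) + (gA - fA)) / Real.pi ≤ 2 * τ := by
      rw [div_le_iff₀ hπ]
      linarith [kA.2, kB.2]
    rw [h2]
    constructor <;> linarith [h1.1, h1.2]
  · push Not at hAB'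
    have e0 : Set.Icc A' B' = ∅ := Set.Icc_eq_empty (by linarith)
    rw [e0, measureReal_empty, zero_add]
    have kk : 0 ≤ fB - fA ∧ fB - fA ≤ Real.pi * τ := by
      have h1 := hmono A B hAB
      refine ⟨by rw [hfA, hfB]; linarith, ?_⟩
      rcases lt_or_ge (p + X) A with hc | hc
      · have h2 := hmono (p + X) A hc.le
        rw [hr] at h2
        rw [hfA, hfB]
        linarith [hub B]
      · rcases lt_or_ge B (p - X) with hc' | hc'
        · have h2 := hmono B (p - X) hc'.le
          rw [hl] at h2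
          rw [hfA, hfB]
          linarith [hlb A]
        · exfalso
          have : A' ≤ B' := by
            rw [hA', hB']
            refine max_le (le_min hAB hc) (le_min hc' (by linarith))
          linarith
    have h3 : 0 ≤ (fB - fA) / Real.pi := div_nonneg kk.1 hπ.le
    have h4 : (fB - fA) / Real.pi ≤ τ := by
      rw [div_le_iff₀ hπ]
      linarith [kk.2]
    constructor <;> linarith

end Pool.Agent.N559.FG
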