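import Pool.Agent.TH794.LL2.Meas

/-! From Poisson integrals in a window to the measures of intervals, and the Cauchy law. -/

set_option autoImplicit false

open scoped BigOperators
open MeasureTheory

namespace Pool.Agent.N559.FG

open Pool.Agent.TH794.LL2

theorem ker_int (m : Measure ℝ) [IsFiniteMeasure m] (t p : ℝ) (ht : 0 < t) :
    Integrable (fun x : ℝ => 2 * t / (t + |x - p|)) m := by
  have hm : Measurable fun x : ℝ => 2 * t / (t + |x - p|) := by fun_prop
  refine Integrable.of_bound (C := 2) hm.aestronglyMeasurable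
    (Filter.Eventually.of_forall fun x => ?_)
  rw [Real.norm_of_nonneg (by positivity), div_le_iff₀ (by positivity)]
  have := abs_nonneg (x - p)
  linarith

/-- the measure of an interval and the smoothed measure -/
theorem smooth_int (m : Measure ℝ) [IsFiniteMeasure m] (t A B : ℝ)
    (ht : 0 < t) (hAB : A ≤ B) :
    |m.real (Set.Icc A B) - Real.pi⁻¹ * ∫ E in A..B, Po m E t| ≤
      ∫ x, 2 * t / (t + |x - B|) ∂m + ∫ x, 2 * t / (t + |x - A|) ∂m := by
  have hπ := Real.pi_pos
  rw [Po_avg m t A B ht hAB, ← mul_assoc, inv_mul_cancel₀ hπ.ne', one_mul]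
  have hi : ∀ a : ℝ, Integrable (fun x => sg t (a - x)) m := by
    intro a
    refine Integrable.of_bound (C := 1)
      ((sg_meas t).comp (by fun_prop : Measurable fun x : ℝ => a - x)).aestronglyMeasurable
      (Filter.Eventually.of_forall fun x => ?_)
    exact sg_bd t (a - x)
  have hind : m.real (Set.Icc A B) = ∫ x, (Set.Icc A B).indicator (fun _ => (1 : ℝ)) x ∂m := by
    rw [integral_indicator_const _ measurableSet_Icc, smul_eq_mul, mul_one]
  have hii : Integrable (fun x => (Set.Icc A B).indicator (fun _ => (1 : ℝ)) x) m :=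
    (integrable_const _).indicator measurableSet_Icc
  have hss : Integrable (fun x => sg t (B - x) - sg t (A - x)) m := (hi B).sub (hi A)
  rw [hind, ← integral_sub hii hss]
  have hpt : ∀ x : ℝ, ‖(Set.Icc A B).indicator (fun _ => (1 : ℝ)) x -
      (sg t (B - x) - sg t (A - x))‖ ≤ 2 * t / (t + |x - B|) + 2 * t / (t + |x - A|) := by
    intro x
    rw [Real.norm_eq_abs]
    have e1 := sg_err t (B - x) ht
    have e2 : |(if x < A then (1 : ℝ) else 0) - sg t (A - x)| ≤ 2 * t / (t + |x - A|) := by
      have e3 := sg_err t (x - A) ht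
      have e4 : sg t (A - x) = 1 - sg t (x - A) := by
        unfold sg
        have : (A - x) / t = -((x - A) / t) := by ring
        rw [this, Real.arctan_neg]
        ring
      have e5 : (if x < A then (1 : ℝ) else 0) = 1 - (if 0 ≤ x - A then 1 else 0) := by
        by_cases hx : x < A
        · rw [if_pos hx, if_neg (by linarith)]
          ring
        · rw [if_neg hx, if_pos (by linarith)]
          ring
      rw [e4, e5]
      have e6 : (1 : ℝ) - (if 0 ≤ x - A then 1 else 0) - (1 - sg t (x - A)) =
          -((if 0 ≤ x - A then 1 else 0) - sg t (x - A)) := by ring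
      rw [e6, abs_neg]
      exact e3
    have e7 : (Set.Icc A B).indicator (fun _ => (1 : ℝ)) x =
        (if 0 ≤ B - x then 1 else 0) - (if x < A then (1 : ℝ) else 0) := by
      by_cases h1 : x < A
      · rw [if_pos h1, if_pos (by linarith), Set.indicator_of_notMem]
        · ring
        · intro hmem
          linarith [hmem.1]
      · rw [if_neg h1]
        by_cases h2 : 0 ≤ B - x
        · rw [if_pos h2, Set.indicator_of_mem]
          · ring
          · push Not at h1
            exact ⟨h1, by linarith⟩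
        · rw [if_neg h2, Set.indicator_of_notMem]
          · ring
          · intro hmem
            apply h2
            linarith [hmem.2]
    rw [e7]
    have e8 : ((if 0 ≤ B - x then (1 : ℝ) else 0) - (if x < A then (1 : ℝ) else 0)) -
        (sg t (B - x) - sg t (A - x)) = ((if 0 ≤ B - x then (1 : ℝ) else 0) - sg t (B - x)) -
        ((if x < A then (1 : ℝ) else 0) - sg t (A - x)) := by ring
    rw [e8]
    rw [abs_sub_comm B x] at e1
    exact (abs_sub _ _).trans (add_le_add e1 e2)
  have hfin := norm_integral_le_of_norm_le ((ker_int m t B ht).add (ker_int m t A ht))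
    (Filter.Eventually.of_forall hpt)
  rw [Real.norm_eq_abs] at hfin
  refine hfin.trans ?_
  have hsum : ∫ x, ((fun x : ℝ => 2 * t / (t + |x - B|)) + fun x : ℝ => 2 * t / (t + |x - A|)) x ∂m
      = ∫ x, 2 * t / (t + |x - B|) ∂m + ∫ x, 2 * t / (t + |x - A|) ∂m :=
    integral_add (ker_int m t B ht) (ker_int m t A ht)
  exact le_of_eq hsum

/-- the error of the smoothing near a point of the window -/
theorem err_loc (m : Measure ℝ) [IsFiniteMeasure m] (hm1 : m.real Set.univ ≤ 1)
    (t K W c p : ℝ) (ht : 0 < t) (hK : 0 ≤ K) (hW : 4 * t ≤ W)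
    (h : ∀ E : ℝ, |E - c| ≤ W → Po m E t ≤ K) (hp : |p - c| ≤ W / 2) (N : ℕ) :
    ∫ x, 2 * t / (t + |x - p|) ∂m ≤
      ((N + 1) * (8 * K * t) + 2 * (1 / 2 : ℝ) ^ N) + 4 * t / W := by
  obtain ⟨Δ, hΔ⟩ : ∃ Δ, Δ = W / 2 - t := ⟨_, rfl⟩
  have hΔ0 : 0 < Δ := by linarith
  obtain ⟨s, hs⟩ : ∃ s, s = Set.Icc (p - Δ) (p + Δ) := ⟨_, rfl⟩
  have hsm : MeasurableSet s := by rw [hs]; exact measurableSet_Icc
  have hi := ker_int m t p ht
  rw [← integral_add_compl hsm hi]
  refine add_le_add ?_ ?_
  · have h1 : (m.restrict s).real Set.univ ≤ 1 := by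
      refine le_trans ?_ hm1
      rw [measureReal_restrict_apply MeasurableSet.univ, Set.univ_inter]
      exact measureReal_mono (Set.subset_univ _)
    have h2 : ∀ E : ℝ, (m.restrict s).real (Set.Icc (E - t) (E + t)) ≤ (2 * K) * t := by
      intro E
      rw [measureReal_restrict_apply measurableSet_Icc]
      by_cases hE : |E - p| ≤ W / 2
      · have h3 : |E - c| ≤ W := by
          have := abs_sub_le E p c
          linarith
        have h4 := (Pool.Agent.W788.LD.Spec.poisson m E t ht).1
        rw [Po_im m E t ht] at h4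
        have h5 := mul_le_mul_of_nonneg_left (h E h3) (show 0 ≤ 2 * t by linarith)
        have h6 : m.real (Set.Icc (E - t) (E + t) ∩ s) ≤ m.real (Set.Icc (E - t) (E + t)) :=
          measureReal_mono Set.inter_subset_left
        linarith
      · have h3 : Set.Icc (E - t) (E + t) ∩ s = ∅ := by
          rw [Set.eq_empty_iff_forall_notMem]
          intro x hx
          rw [hs] at hx
          apply hE
          rw [abs_le]
          constructor
          · linarith [hx.1.1, hx.1.2, hx.2.1, hx.2.2]
          · linarith [hx.1.1, hx.1.2, hx.2.1, hx.2.2]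
        rw [h3, measureReal_empty]
        positivity
    have h3 := err_int (m.restrict s) h1 t (2 * K) ht (by linarith) h2 p N
    have h4 : ((N : ℝ) + 1) * (4 * (2 * K) * t) = (N + 1) * (8 * K * t) := by ring
    linarith
  · have h1 : ∀ x ∈ sᶜ, ‖2 * t / (t + |x - p|)‖ ≤ 4 * t / W := by
      intro x hx
      rw [Real.norm_of_nonneg (by positivity), div_le_div_iff₀ (by positivity) (by linarith)]
      have h2 : Δ ≤ |x - p| := by
        by_contra hc
        push Not at hc
        apply hx
        rw [hs]
        rw [abs_lt] at hc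
        constructor <;> linarith [hc.1, hc.2]
      have h3 : W ≤ 2 * (t + |x - p|) := by linarith
      nlinarith
    have h2 := norm_setIntegral_le_of_norm_le_const (μ := m) (measure_lt_top m sᶜ) h1
    have h3 : m.real sᶜ ≤ 1 := (measureReal_mono (Set.subset_univ _)).trans hm1
    have h4 := Real.le_norm_self (∫ x in sᶜ, 2 * t / (t + |x - p|) ∂m)
    have h5 : 0 ≤ 4 * t / W := by
      apply div_nonneg <;> linarith
    nlinarith

/-- the integral of the Lorentzian -/
theorem lor_int (p Γ A B : ℝ) (hΓ : 0 < Γ) :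
    ∫ E in A..B, Γ / ((E - p) ^ 2 + Γ ^ 2) =
      Real.arctan ((B - p) / Γ) - Real.arctan ((A - p) / Γ) := by
  have hd : ∀ E ∈ Set.uIcc A B, HasDerivAt (fun E => Real.arctan ((E - p) / Γ))
      (Γ / ((E - p) ^ 2 + Γ ^ 2)) E := by
    intro E _
    have h2 : HasDerivAt (fun E : ℝ => (E - p) / Γ) (1 / Γ) E :=
      ((hasDerivAt_id E).sub_const p).div_const Γ
    have h3 := h2.arctan
    convert h3 using 1
    field_simp
    ring
  have hc : IntervalIntegrable (fun E => Γ / ((E - p) ^ 2 + Γ ^ 2)) volume A B := by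
    apply Continuous.intervalIntegrable
    apply Continuous.div continuous_const (by fun_prop)
    intro E
    positivity
  exact intervalIntegral.integral_eq_sub_of_hasDerivAt hd hc

/-- the change of the width -/
theorem atan_width (x Γ t : ℝ) (hΓ : 0 < Γ) (ht : 0 ≤ t) :
    |Real.arctan (x / (Γ + t)) - Real.arctan (x / Γ)| ≤ t / (2 * Γ) := by
  have hd : ∀ s ∈ Set.Icc Γ (Γ + t), HasDerivWithinAt (fun s : ℝ => Real.arctan (x / s))
      (-x / (s ^ 2 + x ^ 2)) (Set.Icc Γ (Γ + t)) s := by
    intro s hs
    have hs0 : 0 < s := lt_of_lt_of_le hΓ hs.1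
    have h1 : HasDerivAt (fun s : ℝ => x / s) (-x / s ^ 2) s := by
      have h0 := (hasDerivAt_inv hs0.ne').const_mul x
      have h01 : x * -(s ^ 2)⁻¹ = -x / s ^ 2 := by ring
      rw [h01] at h0
      exact h0
    have h2 := h1.arctan
    refine (HasDerivAt.hasDerivWithinAt ?_)
    have h3 : 1 / (1 + (x / s) ^ 2) * (-x / s ^ 2) = -x / (s ^ 2 + x ^ 2) := by
      field_simp
    rw [h3] at h2
    exact h2
  have hb : ∀ s ∈ Set.Icc Γ (Γ + t), ‖-x / (s ^ 2 + x ^ 2)‖ ≤ 1 / (2 * Γ) := by
    intro s hs
    have hs0 : 0 < s := lt_of_lt_of_le hΓ hs.1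
    rw [Real.norm_eq_abs, abs_div, abs_neg, abs_of_pos (show 0 < s ^ 2 + x ^ 2 by positivity),
      div_le_div_iff₀ (by positivity) (by positivity), one_mul]
    have h1 : |x| * (2 * Γ) ≤ |x| * (2 * s) := by
      have := hs.1
      gcongr
    have h2 := sq_abs x
    nlinarith [sq_nonneg (|x| - s)]
  have h := Convex.norm_image_sub_le_of_norm_hasDerivWithin_le hd hb (convex_Icc _ _)
    (Set.left_mem_Icc.2 (by linarith)) (Set.right_mem_Icc.2 (by linarith))
  rw [Real.norm_eq_abs, Real.norm_eq_abs] at h
  refine h.trans (le_of_eq ?_)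
  rw [show Γ + t - Γ = t by ring, abs_of_nonneg ht]
  ring

end Pool.Agent.N559.FG
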